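import Pool.Agent.helper65.GF.SpecG

/-! # Row YHC of project bz -/

set_option autoImplicit false

namespace Pool.Agent.GD

open Finset Metric Filter Topology

theorem YHC_sum (A : ℕ) (c : ℝ) :
    ∑ k ∈ range A, (((A - k : ℕ) : ℝ) + c) = (A : ℝ) * (A + 1) / 2 + A * c := by
  induction A with
  | zero => simp
  | succ n ih =>
    rw [Finset.sum_range_succ']
    have h : ∀ k ∈ range n, (((n + 1 - (k + 1) : ℕ) : ℝ) + c) = (((n - k : ℕ) : ℝ) + c) := by
      intro k _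
      have : n + 1 - (k + 1) = n - k := by omega
      rw [this]
    rw [Finset.sum_congr rfl h, ih]
    simp only [Nat.sub_zero]
    push_cast
    ring

theorem YHC (h1 : YVB_stmt) (h2 : YUM_stmt) : YHC_stmt := by
  intro N w x A m hat hA hm
  obtain ⟨β, hβ⟩ : ∃ β, β = mom w x := ⟨_, rfl⟩
  obtain ⟨a, ha⟩ : ∃ a, a = ex 1 β := ⟨_, rfl⟩
  obtain ⟨ω, hω⟩ : ∃ ω, ω = ex (-1) β := ⟨_, rfl⟩
  have hRa : Rec 1 β a := by rw [ha]; exact ex_rec 1 β
  have hRω : Rec (-1) β ω := by rw [hω]; exact ex_rec (-1) β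
  have e1 := IDA 1 β a ω A m hRa hRω
  have e2 := hRa.2 A
  have e3 : ∀ B : ℕ, ‖∑ j, (w j : ℂ) * x j ^ B * gy ω (x j) m‖ ≤
      (1 - ‖mom w x 1‖ ^ 2) * (B + ((m : ℝ) - 1) / 2) := by
    intro B
    have h := (h2 N w x m hat hm).2 B
    have hs : ∑ j, (w j : ℂ) * x j ^ B * gy ω (x j) m =
        ∑ l, (w l : ℂ) * (x l ^ B * gy (ex (-1) (mom w x)) (x l) m) := by
      refine Finset.sum_congr rfl fun j _ => ?_
      rw [hω, hβ, mul_assoc]
    rw [hs]
    exact h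
  have hga : ∀ n : ℕ, ‖a n‖ ≤ 1 := by
    intro n
    rw [ha, hβ]
    exact h1 _ (XHK_mom hat) n
  -- the sum
  have hCC : CC a ω A m = ∑ t ∈ range (m + 1), a (A + t) * ω (m - t) := by
    unfold CC
    rw [← Finset.sum_range_reflect (fun i => a (A + m - i) * ω i)]
    refine Finset.sum_congr rfl fun t ht => ?_
    have ht' : t ≤ m := by have := mem_range.1 ht; omega
    have f1 : m + 1 - 1 - t = m - t := by omega
    have f2 : A + m - (m - t) = A + t := by omega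
    simp only [f1, f2]
  have key : ((A : ℂ) + m) * CC a ω A m = ∑ k ∈ range A, a k * ∑ j, (w j : ℂ) * x j ^ (A - k) * gy ω (x j) m := by
    have f1 : ((A : ℂ) + m) * CC a ω A m = ∑ k ∈ range A, ∑ l ∈ range m, β ((A - k) + (m - l)) * a k * ω l + (A : ℂ) * (a A * ω m) := by
      rw [one_mul] at e1
      rw [hCC, e1]
      ring
    have f2 : (A : ℂ) * (a A * ω m) = ∑ k ∈ range A, β (A - k) * a k * ω m := by
      rw [one_mul] at e2
      rw [← mul_assoc, e2, Finset.sum_mul]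
    rw [f1, f2, ← Finset.sum_add_distrib]
    refine Finset.sum_congr rfl fun k _ => ?_
    rw [← XHK_gy w x ω (A - k) m, ← hβ, Finset.sum_range_succ, Nat.sub_self, add_zero, mul_add, Finset.mul_sum]
    congr 1
    · refine Finset.sum_congr rfl fun l _ => ?_
      ring
    · ring
  have hA0 : (0 : ℝ) < (A : ℝ) := by exact_mod_cast hA
  have hm0 : (0 : ℝ) ≤ (m : ℝ) := Nat.cast_nonneg _
  have hbd : ((A : ℝ) + m) * ‖CC a ω A m‖ ≤ ((A : ℝ) + m) * ((A : ℝ) * (1 - ‖mom w x 1‖ ^ 2) / 2) := by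
    have f1 : ((A : ℝ) + m) * ‖CC a ω A m‖ = ‖((A : ℂ) + m) * CC a ω A m‖ := by
      rw [norm_mul]
      congr 1
      rw [← Nat.cast_add, ← Nat.cast_add, Complex.norm_natCast]
    rw [f1, key]
    calc ‖∑ k ∈ range A, a k * ∑ j, (w j : ℂ) * x j ^ (A - k) * gy ω (x j) m‖
        ≤ ∑ k ∈ range A, (1 - ‖mom w x 1‖ ^ 2) * (((A - k : ℕ) : ℝ) + ((m : ℝ) - 1) / 2) := by
          refine (norm_sum_le _ _).trans (Finset.sum_le_sum fun k _ => ?_)
          rw [norm_mul]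
          calc ‖a k‖ * ‖∑ j, (w j : ℂ) * x j ^ (A - k) * gy ω (x j) m‖
              ≤ 1 * ‖∑ j, (w j : ℂ) * x j ^ (A - k) * gy ω (x j) m‖ :=
                mul_le_mul_of_nonneg_right (hga k) (norm_nonneg _)
            _ = ‖∑ j, (w j : ℂ) * x j ^ (A - k) * gy ω (x j) m‖ := one_mul _
            _ ≤ _ := e3 (A - k)
      _ = ((A : ℝ) + m) * ((A : ℝ) * (1 - ‖mom w x 1‖ ^ 2) / 2) := by
          rw [← Finset.mul_sum, YHC_sum]
          ring
  rw [← hβ, ← ha, ← hω]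
  rw [← hβ] at hbd
  exact le_of_mul_le_mul_left hbd (by positivity)

end Pool.Agent.GD
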